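import Pool.Agent.Helper37.ETC.Defs

/-! ETC-W6 (minimal invariant valuation ring); helper48. -/

set_option autoImplicit false

namespace Pool.Helper37.ETC

/-- The intersection of a chain of valuation rings. -/
def chainInf {K : Type*} [Field K] (c : Set (ValuationSubring K))
    (hc : IsChain (· ≤ ·) c) : ValuationSubring K where
  toSubring := ⨅ O ∈ c, O.toSubring
  mem_or_inv_mem' := by
    intro x
    by_contra hcon
    push Not at hcon
    obtain ⟨h1, h2⟩ := hcon
    have h1' : ∃ O ∈ c, x ∉ O := by
      by_contra h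
      push Not at h
      apply h1
      change x ∈ (⨅ O ∈ c, O.toSubring : Subring K)
      simp only [Subring.mem_iInf]
      exact fun O hO => h O hO
    have h2' : ∃ O ∈ c, x⁻¹ ∉ O := by
      by_contra h
      push Not at h
      apply h2
      change x⁻¹ ∈ (⨅ O ∈ c, O.toSubring : Subring K)
      simp only [Subring.mem_iInf]
      exact fun O hO => h O hO
    obtain ⟨O₁, hO₁, hx₁⟩ := h1'
    obtain ⟨O₂, hO₂, hx₂⟩ := h2'
    rcases hc.total hO₁ hO₂ with h | h
    · rcases O₁.mem_or_inv_mem x with h3 | h3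
      · exact hx₁ h3
      · exact hx₂ (h h3)
    · rcases O₂.mem_or_inv_mem x with h3 | h3
      · exact hx₁ (h h3)
      · exact hx₂ h3

theorem mem_chainInf {K : Type*} [Field K] {c : Set (ValuationSubring K)}
    {hc : IsChain (· ≤ ·) c} {x : K} : x ∈ chainInf c hc ↔ ∀ O ∈ c, x ∈ O := by
  change x ∈ (⨅ O ∈ c, O.toSubring : Subring K) ↔ _
  simp only [Subring.mem_iInf]
  rfl

/-- W6 (minimal invariant valuation ring) -/
theorem exists_min_inv (G : Type*) (K : Type*) [Group G] [Field K] [MulSemiringAction G K] :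
    ∃ O : ValuationSubring K, Zg G O = ⊤ ∧
      ∀ O' : ValuationSubring K, O' ≤ O → Zg G O' = ⊤ → O' = O := by
  obtain ⟨m, hm⟩ := zorn_le₀ (α := (ValuationSubring K)ᵒᵈ)
    {O | Zg G (OrderDual.ofDual O) = ⊤} (by
      intro c hcs hc
      have hc' : IsChain (· ≤ ·) (OrderDual.ofDual '' c : Set (ValuationSubring K)) := by
        rintro _ ⟨a, ha, rfl⟩ _ ⟨b, hb, rfl⟩ hab
        rcases hc.total ha hb with h | h
        · exact Or.inr h
        · exact Or.inl h
      refine ⟨OrderDual.toDual (chainInf _ hc'), ?_, ?_⟩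
      · change Zg G (chainInf _ hc') = ⊤
        rw [eq_top_iff]
        intro σ _ x
        rw [mem_chainInf, mem_chainInf]
        refine forall₂_congr fun O hO => ?_
        obtain ⟨a, ha, rfl⟩ := hO
        have h1 : Zg G (OrderDual.ofDual a) = ⊤ := hcs ha
        have h2 : σ ∈ Zg G (OrderDual.ofDual a) := by rw [h1]; trivial
        exact h2 x
      · intro z hz
        change chainInf _ hc' ≤ OrderDual.ofDual z
        intro x hx
        exact mem_chainInf.1 hx _ ⟨z, hz, rfl⟩)
  refine ⟨OrderDual.ofDual m, hm.prop, fun O' hle hO' => ?_⟩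
  exact le_antisymm hle (hm.2 (y := OrderDual.toDual O') hO' hle)

end Pool.Helper37.ETC
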